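import Pool.Agent.Q291.MK.Stm11
import Pool.Agent.Q291.MK.Base2
import Pool.Agent.Q224.MK.CMP

/-!
# Job WMON of project MK (helper151): the Wilson loop increases with the bare coupling
-/

set_option autoImplicit false

namespace Pool.Agent.Q151.MK

open Filter Topology Pool.Agent.Q291.MK Pool.Agent.Q291.MK.BetaAux Pool.Agent.Q291.MK.LimAux

/-- the centred observable -/
noncomputable def cf (w : ℝ) (k : ℕ) : ℝ := I k * (w - 3 / ((k : ℝ) + 3))

lemma I_succ' (k : ℕ) : I (k + 1) = I k * ((k + 3 / 2) / (k + 3)) := by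
  show I k * ((2 * (k : ℝ) + 3) / (2 * k + 6)) = _
  have h0 : (0 : ℝ) ≤ k := Nat.cast_nonneg k
  congr 1
  rw [div_eq_div_iff (by positivity) (by positivity)]
  ring

lemma dl_cf (w : ℝ) (k : ℕ) : dl (cf w) k =
    3 / 2 * (I k / ((k : ℝ) + 3)) * (5 / ((k : ℝ) + 4) - w) := by
  unfold dl cf
  rw [I_succ']
  have h0 : (0 : ℝ) ≤ k := Nat.cast_nonneg k
  push_cast
  field_simp
  ring

lemma ddl_cf (w : ℝ) (k : ℕ) : dl (dl (cf w)) k =
    15 / 4 * (I k / (((k : ℝ) + 3) * ((k : ℝ) + 4))) * (w - 7 / ((k : ℝ) + 5)) := by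
  have h0 : (0 : ℝ) ≤ k := Nat.cast_nonneg k
  have e : dl (dl (cf w)) k = dl (cf w) (k + 1) - dl (cf w) k := rfl
  rw [e, dl_cf, dl_cf, I_succ']
  push_cast
  field_simp
  ring

lemma inv3 : PB (fun k => 3 / ((k : ℝ) + 3)) := (PB.const 1).of_le fun k => by
  have h0 : (0 : ℝ) ≤ k := Nat.cast_nonneg k
  rw [abs_of_nonneg (by positivity), div_le_one (by positivity)]
  linarith

lemma PB_cf (w : ℝ) : PB (cf w) := PB.I.mul ((PB.const w).sub inv3)

lemma PB_dl {φ : ℕ → ℝ} (h : ∃ C : ℝ, ∀ k, |dl φ k| ≤ C) : PB (dl φ) := by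
  obtain ⟨C, hC⟩ := h
  exact (PB.const C).of_le hC

/-- the main step -/
theorem core {C3 C8 C12 M e C D : ℝ} (hC : Cst C3 C8 C12 M e C) (hD : 1 ≤ D) :
    ∃ M3 : ℝ, M ≤ M3 ∧ M + D ≤ M3 ∧ ∀ (a b : ℕ → ℝ) (h : ℝ), Cl C3 C8 C12 a → Cl C3 C8 C12 b →
    M3 ≤ mean a → 0 ≤ h → h ≤ 1 → 3 / 4 * h ≤ mean b - mean a → mean b - mean a ≤ 5 / 4 * h →
    Fd e a b (D * h * √(mean a)) →
    1 / 40 * (mean b - mean a) ≤ mean a ^ 2 * (W b - W a) := by
  obtain ⟨D2, M2, hD2, hM2, hWA⟩ := bWA C3 C8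
  obtain ⟨D3, hD3, hR⟩ := bRH2
  have he := hC.he
  have hM := hC.hM
  have hC8 := hC.h8
  obtain ⟨η, hη⟩ : ∃ η : ℝ, η = 1 / (10 * (D3 + 1)) := ⟨_, rfl⟩
  have hη0 : 0 < η := by rw [hη]; positivity
  have hη1 : η ≤ 1 / 10 := by
    rw [hη]
    exact one_div_le_one_div_of_le (by norm_num) (by linarith)
  have hη5 : D3 * η ≤ 1 / 10 := by
    rw [hη, mul_one_div, div_le_iff₀ (by positivity)]
    linarith
  obtain ⟨A, hA⟩ : ∃ A : ℝ, A = 2640 + 200 * D3 / e := ⟨_, rfl⟩
  have hA0 : 0 < A := by rw [hA]; positivity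
  refine ⟨M + D + 100 + (10 * D2) ^ 2 + M2 + 20 * D3 + 228 / η ^ 2 + 2048 * D3 * C8 +
    (11 * D * A) ^ 2, ?_, ?_, ?_⟩
  · have : 0 ≤ (10 * D2) ^ 2 + M2 + 20 * D3 + 228 / η ^ 2 + 2048 * D3 * C8 + (11 * D * A) ^ 2 := by
      positivity
    linarith
  · have : 0 ≤ (10 * D2) ^ 2 + M2 + 20 * D3 + 228 / η ^ 2 + 2048 * D3 * C8 + (11 * D * A) ^ 2 := by
      positivity
    linarith
  intro a b h ha hb hm h0 h1 hΔ1 hΔ2 hFd
  obtain ⟨μ, hμ⟩ : ∃ μ, μ = mean a := ⟨_, rfl⟩
  rw [← hμ] at hm hΔ1 hΔ2 hFd ⊢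
  have p1 : 0 ≤ (10 * D2) ^ 2 := by positivity
  have p3 : 0 ≤ 228 / η ^ 2 := by positivity
  have p4 : 0 ≤ 2048 * D3 * C8 := by positivity
  have p5 : 0 ≤ (11 * D * A) ^ 2 := by positivity
  have hμ100 : 100 ≤ μ := by linarith
  have hμ0 : 0 < μ := by linarith
  have hμM2 : M2 ≤ μ := by linarith
  have hμa : (10 * D2) ^ 2 ≤ μ := by linarith
  have hμb : 20 * D3 ≤ μ := by linarith
  have hμc : 228 / η ^ 2 ≤ μ := by linarith
  have hμd : 2048 * D3 * C8 ≤ μ := by linarith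
  have hμe : (11 * D * A) ^ 2 ≤ μ := by linarith
  obtain ⟨s, hs⟩ : ∃ s, s = √μ := ⟨_, rfl⟩
  have hs0 : 0 < s := by rw [hs]; exact Real.sqrt_pos.2 hμ0
  have hss : s * s = μ := by rw [hs]; exact Real.mul_self_sqrt hμ0.le
  have hsa : 10 * D2 ≤ s := by rw [hs]; exact Real.le_sqrt_of_sq_le hμa
  have hse : 11 * D * A ≤ s := by rw [hs]; exact Real.le_sqrt_of_sq_le hμe
  -- the Wilson loop
  obtain ⟨w, hw⟩ : ∃ w, w = 1 - W a := ⟨_, rfl⟩
  have hwA := hWA a ha.toCls (by rw [← hμ]; exact hμM2)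
  rw [← hμ, ← hs, ← hw] at hwA
  have hw1 : D2 / (μ * s) ≤ 1 / 10 / μ := by
    rw [div_le_div_iff₀ (by positivity) hμ0]
    nlinarith
  have hwl : 29 / 10 / μ ≤ w := by
    have := (abs_le.1 hwA).1
    have e1 : 29 / 10 / μ = 3 / μ - 1 / 10 / μ := by ring
    linarith
  have hwu : w ≤ 31 / 10 / μ := by
    have := (abs_le.1 hwA).2
    have e1 : 31 / 10 / μ = 3 / μ + 1 / 10 / μ := by ring
    linarith
  have hw0 : 0 < w := lt_of_lt_of_le (by positivity) hwl
  have hw1' : w ≤ 1 := by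
    refine hwu.trans ?_
    rw [div_le_one hμ0]; linarith
  -- the function `I`
  obtain ⟨I0, hI0, hall, hbig⟩ := hR (μ / 2) (by linarith)
  have hIall : ∀ n : ℕ, I n ≤ D3 * μ ^ 2 / 4 * I0 := by
    intro n
    have := hall n
    rw [div_le_iff₀ hI0] at this
    refine this.trans (le_of_eq ?_)
    ring
  have hIbig : ∀ n : ℕ, 3 / 8 * μ ≤ n → I n ≤ 9 / 2 * I0 := by
    intro n hn
    have := (hbig n (by linarith)).1
    rwa [div_le_iff₀ hI0] at this
  -- expectations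
  have hAa := ha.toAM
  have hAb := hb.toAM
  have hEaI : 0 < E a I := Pool.Agent.Q280.MK.E_I_pos hAa.toLaw
  have hEbI : 0 < E b I := Pool.Agent.Q280.MK.E_I_pos hAb.toLaw
  have hfr : PB (fun k => (k : ℝ) / ((k : ℝ) + 3)) := (PB.const 1).of_le fun k => by
    have h0 : (0 : ℝ) ≤ k := Nat.cast_nonneg k
    rw [abs_of_nonneg (by positivity), div_le_one (by positivity)]
    linarith
  have hcf : ∀ k : ℕ, cf w k = I k * ((k : ℝ) / ((k : ℝ) + 3)) - W a * I k := by
    intro k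
    unfold cf
    have h0 : (0 : ℝ) ≤ k := Nat.cast_nonneg k
    rw [hw]
    field_simp
    ring
  have hEcf : ∀ c : ℕ → ℝ, AM c → E c (cf w) = (W c - W a) * E c I := by
    intro c hc
    have h1 : 0 < E c I := Pool.Agent.Q280.MK.E_I_pos hc.toLaw
    have h2 : E c (cf w) = E c (fun k => I k * ((k : ℝ) / ((k : ℝ) + 3))) - W a * E c I := by
      rw [← E_const_mul, ← hc.E_sub (PB.I.mul hfr) ((PB.const (W a)).mul PB.I)]
      congr 1
      funext k
      exact hcf k
    have h3 : W c * E c I = E c (fun k => I k * ((k : ℝ) / ((k : ℝ) + 3))) := by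
      unfold W
      exact div_mul_cancel₀ _ h1.ne'
    rw [h2, ← h3]
    ring
  have hEa0 : E a (cf w) = 0 := by rw [hEcf a hAa, sub_self, zero_mul]
  -- the test function
  obtain ⟨K, hK⟩ : ∃ K : ℝ, K = A * I0 / μ ^ 3 := ⟨_, rfl⟩
  have hK0 : 0 < K := by rw [hK]; positivity
  have hdd : ∀ k : ℕ, |dl (dl (cf w)) k| ≤ K * wt e μ k := by
    intro k
    have hk : (0 : ℝ) ≤ k := Nat.cast_nonneg k
    have hI := I_pos k
    rw [ddl_cf, abs_mul, abs_of_nonneg (by positivity : 0 ≤ 15 / 4 * (I k / (((k : ℝ) + 3) *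
      ((k : ℝ) + 4))))]
    have hwt1 : 1 ≤ wt e μ k := by
      unfold wt
      have : 0 ≤ ((k : ℝ) - μ) ^ 10 := Even.pow_nonneg (by decide) _
      have : 0 ≤ e * (((k : ℝ) - μ) ^ 10 / μ ^ 5) := by positivity
      linarith
    rcases le_or_gt (3 / 8 * μ) k with hc | hc
    · have a1 : I k ≤ 9 / 2 * I0 := hIbig k hc
      have a2 : I k / (((k : ℝ) + 3) * ((k : ℝ) + 4)) ≤ 9 / 2 * I0 / (3 / 8 * μ * (3 / 8 * μ)) := by
        refine div_le_div₀ (by positivity) a1 (by positivity) ?_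
        exact mul_le_mul (by linarith) (by linarith) (by positivity) (by positivity)
      have a3 : |w - 7 / ((k : ℝ) + 5)| ≤ 22 / μ := by
        have b1 : 7 / ((k : ℝ) + 5) ≤ 7 / (3 / 8 * μ) := by
          refine div_le_div_of_nonneg_left (by norm_num) (by positivity) (by linarith)
        have b2 : 7 / (3 / 8 * μ) = 56 / 3 / μ := by field_simp; norm_num
        have b3 : 0 < 7 / ((k : ℝ) + 5) := by positivity
        have b4 : 22 / μ = 31 / 10 / μ + 56 / 3 / μ + 7 / 30 / μ := by field_simp; norm_num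
        have b5 : 0 < 7 / 30 / μ := by positivity
        rw [abs_le]
        constructor <;> linarith
      calc 15 / 4 * (I k / (((k : ℝ) + 3) * ((k : ℝ) + 4))) * |w - 7 / ((k : ℝ) + 5)|
          ≤ 15 / 4 * (9 / 2 * I0 / (3 / 8 * μ * (3 / 8 * μ))) * (22 / μ) :=
            mul_le_mul (mul_le_mul_of_nonneg_left a2 (by norm_num)) a3 (abs_nonneg _)
              (by positivity)
        _ = 2640 * I0 / μ ^ 3 := by field_simp; norm_num
        _ ≤ K := by
            rw [hK]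
            have : 2640 ≤ A := by
              rw [hA]
              have : 0 ≤ 200 * D3 / e := by positivity
              linarith
            gcongr
        _ ≤ K * wt e μ k := le_mul_of_one_le_right hK0.le hwt1
    · have a1 : I k ≤ D3 * μ ^ 2 / 4 * I0 := hIall k
      have a2 : I k / (((k : ℝ) + 3) * ((k : ℝ) + 4)) ≤ D3 * μ ^ 2 / 4 * I0 / 12 := by
        refine div_le_div₀ (by positivity) a1 (by norm_num) ?_
        nlinarith
      have a3 : |w - 7 / ((k : ℝ) + 5)| ≤ 12 / 5 := by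
        have b1 : 7 / ((k : ℝ) + 5) ≤ 7 / 5 :=
          div_le_div_of_nonneg_left (by norm_num) (by positivity) (by linarith)
        have b3 : 0 < 7 / ((k : ℝ) + 5) := by positivity
        rw [abs_le]
        constructor <;> linarith
      have a4 : (5 / 8 * μ) ^ 10 ≤ ((k : ℝ) - μ) ^ 10 := by
        have h5 : (5 / 8 * μ) ^ 10 ≤ (μ - k) ^ 10 :=
          pow_le_pow_left₀ (by positivity) (by linarith) 10
        have h6 : ((k : ℝ) - μ) ^ 10 = (μ - k) ^ 10 := by ring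
        rw [h6]; exact h5
      have a5 : e * (9 / 1000 * μ ^ 5) ≤ wt e μ k := by
        unfold wt
        have h7 : 9 / 1000 * μ ^ 5 ≤ ((k : ℝ) - μ) ^ 10 / μ ^ 5 := by
          rw [le_div_iff₀ (by positivity)]
          refine le_trans ?_ a4
          have h8 : (5 / 8 * μ) ^ 10 = 9765625 / 1073741824 * (μ ^ 5 * μ ^ 5) := by ring
          rw [h8, mul_assoc]
          have h9 : 0 ≤ μ ^ 5 * μ ^ 5 := by positivity
          exact mul_le_mul_of_nonneg_right (by norm_num) h9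
        have := mul_le_mul_of_nonneg_left h7 he.le
        linarith
      have a6 : 200 * D3 / e ≤ A := by rw [hA]; linarith
      calc 15 / 4 * (I k / (((k : ℝ) + 3) * ((k : ℝ) + 4))) * |w - 7 / ((k : ℝ) + 5)|
          ≤ 15 / 4 * (D3 * μ ^ 2 / 4 * I0 / 12) * (12 / 5) :=
            mul_le_mul (mul_le_mul_of_nonneg_left a2 (by norm_num)) a3 (abs_nonneg _)
              (by positivity)
        _ = 3 / 16 * (D3 * μ ^ 2 * I0) := by ring
        _ ≤ 18 / 10 * (D3 * μ ^ 2 * I0) :=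
            mul_le_mul_of_nonneg_right (by norm_num) (by positivity)
        _ = (200 * D3 / e) * I0 / μ ^ 3 * (e * (9 / 1000 * μ ^ 5)) := by field_simp; norm_num
        _ ≤ A * I0 / μ ^ 3 * (e * (9 / 1000 * μ ^ 5)) := by
            refine mul_le_mul_of_nonneg_right ?_ (by positivity)
            gcongr
        _ ≤ K * wt e μ k := by
            rw [← hK]
            exact mul_le_mul_of_nonneg_left a5 hK0.le
  have hT : Tst e (mean a) (fun k => K⁻¹ * cf w k) := by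
    refine ⟨(PB.const _).mul (PB_cf w), fun k => ?_⟩
    have e1 : dl (dl (fun k => K⁻¹ * cf w k)) k = K⁻¹ * dl (dl (cf w)) k := by
      unfold dl; ring
    rw [e1, abs_mul, abs_of_pos (inv_pos.2 hK0), ← hμ, inv_mul_le_iff₀ hK0]
    exact hdd k
  have hF := hFd _ hT
  rw [← hμ, E_const_mul, E_const_mul] at hF
  have hPd : PB (dl (cf w)) := by
    have := (Pool.Agent.Q210.MK.PB_shift (PB_cf w)).sub (PB_cf w)
    exact this
  have hdlK : E a (dl (fun k => K⁻¹ * cf w k)) = K⁻¹ * E a (dl (cf w)) := by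
    rw [← E_const_mul]
    congr 1
    funext k
    unfold dl; ring
  rw [hdlK, hEa0, ← hs] at hF
  -- the derivative
  have hder : I0 / μ ^ 2 * (1 / 4) ≤ E a (dl (cf w)) := by
    have hpt : ∀ k : ℕ, I0 / μ ^ 2 * (1 / 2) + (-(I0 / μ ^ 2 * (57 / (η ^ 2 * μ ^ 2)))) *
        ((k : ℝ) - μ) ^ 2 ≤ dl (cf w) k := by
      intro k
      have hk : (0 : ℝ) ≤ k := Nat.cast_nonneg k
      have hI := I_pos k
      rw [dl_cf]
      rcases le_or_gt |(k : ℝ) - μ| (η * μ) with hc | hc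
      · have c1 : |(k : ℝ) - μ| ≤ μ / 10 := hc.trans (by nlinarith)
        obtain ⟨c2, c3⟩ := abs_le.1 c1
        have c4 : I0 / 2 ≤ I k := by
          have d1 := (hbig k (by linarith)).2
          obtain ⟨u, hu⟩ : ∃ u, u = uu (μ / 2) k := ⟨_, rfl⟩
          have hu' : u = ((k : ℝ) - μ) / (μ + 7 / 4) := by
            rw [hu]; unfold uu; congr 1 <;> ring
          rw [← hu] at d1
          have hu1 : |u| ≤ η := by
            rw [hu', abs_div, abs_of_pos (by positivity : 0 < μ + 7 / 4), div_le_iff₀ (by positivity)]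
            nlinarith
          have hu2 : |u| ≤ 1 / 10 := hu1.trans hη1
          have d2 : |u| ^ 5 ≤ η := by
            calc |u| ^ 5 ≤ |u| ^ 1 := pow_le_pow_of_le_one (abs_nonneg _) (by linarith) (by norm_num)
              _ = |u| := pow_one _
              _ ≤ η := hu1
          have d3 : D3 * (|u| ^ 5 + 1 / (μ / 2) ^ 2) ≤ 3 / 20 := by
            have f1 : 1 / (μ / 2) ^ 2 ≤ 1 / μ := by
              rw [div_le_div_iff₀ (by positivity) hμ0]
              nlinarith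
            have f2 : D3 * (1 / μ) ≤ 1 / 20 := by
              rw [mul_one_div, div_le_iff₀ hμ0]; linarith
            have f3 : D3 * |u| ^ 5 ≤ D3 * η := mul_le_mul_of_nonneg_left d2 hD3.le
            have f4 : D3 * (1 / (μ / 2) ^ 2) ≤ D3 * (1 / μ) := mul_le_mul_of_nonneg_left f1 hD3.le
            linarith
          have d4 : 4 / 5 ≤ q4 u := by
            obtain ⟨g1, g2⟩ := abs_le.1 hu2
            unfold q4
            have g3 : 0 ≤ u ^ 2 := sq_nonneg u
            have g4 : u ^ 3 ≤ 1 / 10 * u ^ 2 := by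
              have : u ^ 3 = u * u ^ 2 := by ring
              rw [this]
              exact mul_le_mul_of_nonneg_right g2 g3
            have g5 : 0 ≤ u ^ 4 := by positivity
            linarith
          have d5 := (abs_le.1 d1).1
          have d6 : 1 / 2 ≤ I k / I0 := by linarith
          rw [le_div_iff₀ hI0] at d6
          linarith
        have c5 : I0 / (24 / 10 * μ) ≤ I k / ((k : ℝ) + 3) := by
          have : I0 / (24 / 10 * μ) = I0 / 2 / (12 / 10 * μ) := by field_simp; norm_num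
          rw [this]
          exact div_le_div₀ hI.le c4 (by positivity) (by linarith)
        have c6 : 11 / 10 / μ ≤ 5 / ((k : ℝ) + 4) - w := by
          have g1 : 42 / 10 / μ ≤ 5 / ((k : ℝ) + 4) := by
            rw [div_le_div_iff₀ hμ0 (by positivity)]
            linarith
          have g2 : 11 / 10 / μ = 42 / 10 / μ - 31 / 10 / μ := by ring
          linarith
        have c7 : 0 ≤ I0 / μ ^ 2 * (57 / (η ^ 2 * μ ^ 2)) * ((k : ℝ) - μ) ^ 2 := by positivity
        have c8 : 3 / 2 * (I0 / (24 / 10 * μ)) * (11 / 10 / μ) ≤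
            3 / 2 * (I k / ((k : ℝ) + 3)) * (5 / ((k : ℝ) + 4) - w) :=
          mul_le_mul (mul_le_mul_of_nonneg_left c5 (by norm_num)) c6 (by positivity) (by positivity)
        have c9 : 3 / 2 * (I0 / (24 / 10 * μ)) * (11 / 10 / μ) = I0 / μ ^ 2 * (11 / 16) := by
          field_simp; norm_num
        have c10 : I0 / μ ^ 2 * (1 / 2) ≤ I0 / μ ^ 2 * (11 / 16) :=
          mul_le_mul_of_nonneg_left (by norm_num) (by positivity)
        linarith
      · have c1 : 57 ≤ 57 / (η ^ 2 * μ ^ 2) * ((k : ℝ) - μ) ^ 2 := by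
          have g1 : (η * μ) ^ 2 ≤ ((k : ℝ) - μ) ^ 2 := by
            rw [← sq_abs ((k : ℝ) - μ)]
            exact pow_le_pow_left₀ (by positivity) hc.le 2
          calc (57 : ℝ) = 57 / (η ^ 2 * μ ^ 2) * (η * μ) ^ 2 := by field_simp
            _ ≤ _ := mul_le_mul_of_nonneg_left g1 (by positivity)
        have c2 : I0 / μ ^ 2 * (1 / 2) + (-(I0 / μ ^ 2 * (57 / (η ^ 2 * μ ^ 2)))) *
            ((k : ℝ) - μ) ^ 2 ≤ -(I0 / μ ^ 2 * 56) := by
          have g1 : I0 / μ ^ 2 * 57 ≤ I0 / μ ^ 2 * (57 / (η ^ 2 * μ ^ 2) * ((k : ℝ) - μ) ^ 2) :=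
            mul_le_mul_of_nonneg_left c1 (by positivity)
          have g2 : 0 < I0 / μ ^ 2 := by positivity
          linarith
        refine c2.trans ?_
        rcases le_or_gt (3 / 8 * μ) k with hd | hd
        · have a1 : I k ≤ 9 / 2 * I0 := hIbig k hd
          have a2 : I k / ((k : ℝ) + 3) ≤ 9 / 2 * I0 / (3 / 8 * μ) :=
            div_le_div₀ (by positivity) a1 (by positivity) (by linarith)
          have a3 : -(31 / 10 / μ) ≤ 5 / ((k : ℝ) + 4) - w := by
            have : 0 < 5 / ((k : ℝ) + 4) := by positivity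
            linarith
          have a4 : 0 < I k / ((k : ℝ) + 3) := by positivity
          have a5 : 3 / 2 * (I k / ((k : ℝ) + 3)) * (-(31 / 10 / μ)) ≤
              3 / 2 * (I k / ((k : ℝ) + 3)) * (5 / ((k : ℝ) + 4) - w) :=
            mul_le_mul_of_nonneg_left a3 (by positivity)
          have a6 : 3 / 2 * (I k / ((k : ℝ) + 3)) * (31 / 10 / μ) ≤
              3 / 2 * (9 / 2 * I0 / (3 / 8 * μ)) * (31 / 10 / μ) := by gcongr
          have a7 : 3 / 2 * (9 / 2 * I0 / (3 / 8 * μ)) * (31 / 10 / μ) = I0 / μ ^ 2 * (279 / 5) := by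
            field_simp; norm_num
          have a8 : 0 < I0 / μ ^ 2 := by positivity
          linarith
        · have a1 : 0 ≤ 5 / ((k : ℝ) + 4) - w := by
            have g1 : 31 / 10 / μ ≤ 5 / ((k : ℝ) + 4) := by
              rw [div_le_div_iff₀ hμ0 (by positivity)]
              linarith
            linarith
          have a2 : 0 ≤ 3 / 2 * (I k / ((k : ℝ) + 3)) * (5 / ((k : ℝ) + 4) - w) := by positivity
          have a3 : 0 ≤ I0 / μ ^ 2 * 56 := by positivity
          linarith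
    have hx : PB (fun k => (k : ℝ) - μ) := PB.id.sub (PB.const μ)
    have h2 := hAa.E_mono ((PB.const (I0 / μ ^ 2 * (1 / 2))).add
      ((PB.const (-(I0 / μ ^ 2 * (57 / (η ^ 2 * μ ^ 2))))).mul (hx.pow 2))) hPd hpt
    rw [hAa.E_add (PB.const _) ((PB.const _).mul (hx.pow 2)), hAa.toLaw.E_const,
      E_const_mul] at h2
    have h3 : E a (fun k => ((k : ℝ) - μ) ^ 2) = vr a := by rw [hμ]; rfl
    rw [h3] at h2
    refine le_trans ?_ h2
    have hvr : vr a ≤ μ := by rw [hμ]; exact ha.vr_le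
    have h4 : I0 / μ ^ 2 * (57 / (η ^ 2 * μ ^ 2)) * vr a ≤ I0 / μ ^ 2 * (57 / (η ^ 2 * μ ^ 2)) * μ :=
      mul_le_mul_of_nonneg_left hvr (by positivity)
    have h5 : 57 / (η ^ 2 * μ ^ 2) * μ ≤ 1 / 4 := by
      have g1 : 57 / (η ^ 2 * μ ^ 2) * μ = (228 / η ^ 2) / μ / 4 := by field_simp; norm_num
      rw [g1]
      have g2 : (228 / η ^ 2) / μ ≤ 1 := by rw [div_le_one hμ0]; exact hμc
      linarith
    have h6 : I0 / μ ^ 2 * (57 / (η ^ 2 * μ ^ 2)) * μ ≤ I0 / μ ^ 2 * (1 / 4) := by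
      rw [mul_assoc]
      exact mul_le_mul_of_nonneg_left h5 (by positivity)
    linarith
  -- the denominator
  have hden : E b I ≤ 5 * I0 := by
    obtain ⟨mb, hmb⟩ : ∃ mb, mb = mean b := ⟨_, rfl⟩
    rw [← hmb] at hΔ1 hΔ2
    have hmb0 : μ ≤ mb := by linarith
    have hmb1 : mb ≤ 2 * μ := by linarith
    have hpt : ∀ k : ℕ, I k ≤ 9 / 2 * I0 + 64 * D3 * I0 / μ ^ 6 * ((k : ℝ) - mb) ^ 8 := by
      intro k
      have hk : (0 : ℝ) ≤ k := Nat.cast_nonneg k
      have g0 : 0 ≤ ((k : ℝ) - mb) ^ 8 := Even.pow_nonneg (by decide) _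
      rcases le_or_gt (3 / 8 * μ) k with hd | hd
      · have g1 : 0 ≤ 64 * D3 * I0 / μ ^ 6 * ((k : ℝ) - mb) ^ 8 := by positivity
        have := hIbig k hd
        linarith
      · have g1 : (μ / 2) ^ 8 ≤ ((k : ℝ) - mb) ^ 8 := by
          have h5 : (μ / 2) ^ 8 ≤ (mb - k) ^ 8 :=
            pow_le_pow_left₀ (by positivity) (by linarith) 8
          have h6 : ((k : ℝ) - mb) ^ 8 = (mb - k) ^ 8 := by ring
          rw [h6]; exact h5
        have g2 : 64 * D3 * I0 / μ ^ 6 * (μ / 2) ^ 8 ≤ 64 * D3 * I0 / μ ^ 6 * ((k : ℝ) - mb) ^ 8 :=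
          mul_le_mul_of_nonneg_left g1 (by positivity)
        have g3 : 64 * D3 * I0 / μ ^ 6 * (μ / 2) ^ 8 = D3 * μ ^ 2 / 4 * I0 := by
          field_simp; norm_num
        have := hIall k
        have : 0 < 9 / 2 * I0 := by positivity
        linarith
    have hx : PB (fun k => (k : ℝ) - mb) := PB.id.sub (PB.const mb)
    have h2 := hAb.E_mono PB.I ((PB.const (9 / 2 * I0)).add
      ((PB.const (64 * D3 * I0 / μ ^ 6)).mul (hx.pow 8))) hpt
    rw [hAb.E_add (PB.const _) ((PB.const _).mul (hx.pow 8)), hAb.toLaw.E_const,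
      E_const_mul] at h2
    have h3 : E b (fun k => ((k : ℝ) - mb) ^ 8) = m8 b := by rw [hmb]; rfl
    rw [h3] at h2
    have h4 : m8 b ≤ C8 * (2 * μ) ^ 4 := by
      refine hb.m8_le.trans ?_
      rw [← hmb]
      have hmb00 : 0 ≤ mb := hμ0.le.trans hmb0
      gcongr
    have h5 : 64 * D3 * I0 / μ ^ 6 * m8 b ≤ 64 * D3 * I0 / μ ^ 6 * (C8 * (2 * μ) ^ 4) :=
      mul_le_mul_of_nonneg_left h4 (by positivity)
    have h6 : 64 * D3 * I0 / μ ^ 6 * (C8 * (2 * μ) ^ 4) = (2048 * D3 * C8) / μ * (1 / 2 * I0) / μ := by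
      field_simp; norm_num
    have h7 : (2048 * D3 * C8) / μ ≤ 1 := by rw [div_le_one hμ0]; exact hμd
    have h8 : (2048 * D3 * C8) / μ * (1 / 2 * I0) / μ ≤ 1 / 2 * I0 := by
      rw [div_le_iff₀ hμ0]
      have g1 : (2048 * D3 * C8) / μ * (1 / 2 * I0) ≤ 1 * (1 / 2 * I0) :=
        mul_le_mul_of_nonneg_right h7 (by positivity)
      nlinarith
    linarith
  -- conclusion
  obtain ⟨Δ, hΔ⟩ : ∃ Δ, Δ = mean b - μ := ⟨_, rfl⟩
  rw [← hΔ] at hF hΔ1 hΔ2 ⊢
  have hΔ0 : 0 ≤ Δ := by linarith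
  have hnum : Δ * (I0 / μ ^ 2 * (1 / 8)) ≤ E b (cf w) := by
    have g1 := (abs_le.1 hF).1
    have g2 : K⁻¹ * E b (cf w) ≥ Δ * (K⁻¹ * E a (dl (cf w))) - D * h * s := by linarith
    have g3 : K * (Δ * (K⁻¹ * E a (dl (cf w))) - D * h * s) ≤ K * (K⁻¹ * E b (cf w)) :=
      mul_le_mul_of_nonneg_left g2 hK0.le
    rw [mul_inv_cancel_left₀ hK0.ne'] at g3
    have g4 : K * (Δ * (K⁻¹ * E a (dl (cf w))) - D * h * s) =
        Δ * E a (dl (cf w)) - K * (D * h * s) := by
      field_simp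
    rw [g4] at g3
    refine le_trans ?_ g3
    have g5 : Δ * (I0 / μ ^ 2 * (1 / 4)) ≤ Δ * E a (dl (cf w)) :=
      mul_le_mul_of_nonneg_left hder hΔ0
    have g6 : K * (D * h * s) = I0 / μ ^ 2 * (D * A * h / s) := by
      rw [hK, ← hss]; field_simp
    have g7 : D * A * h / s ≤ Δ * (1 / 8) := by
      rw [div_le_iff₀ hs0]
      have f1 : D * A * h ≤ D * A * (4 / 3 * Δ) := by
        have : 0 ≤ D * A := by positivity
        exact mul_le_mul_of_nonneg_left (by linarith) this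
      have f2 : Δ * (11 * D * A) ≤ Δ * s := mul_le_mul_of_nonneg_left hse hΔ0
      have f3 : 0 ≤ Δ * (D * A) := by positivity
      linarith
    have g8 : I0 / μ ^ 2 * (D * A * h / s) ≤ I0 / μ ^ 2 * (Δ * (1 / 8)) :=
      mul_le_mul_of_nonneg_left g7 (by positivity)
    rw [g6]
    linarith
  rw [hEcf b hAb] at hnum
  have hWn : 0 ≤ W b - W a := by
    by_contra hcon
    push Not at hcon
    have : (W b - W a) * E b I < 0 := mul_neg_of_neg_of_pos hcon hEbI
    have : 0 ≤ Δ * (I0 / μ ^ 2 * (1 / 8)) := by positivity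
    linarith
  have h9 : (W b - W a) * E b I ≤ (W b - W a) * (5 * I0) := mul_le_mul_of_nonneg_left hden hWn
  have h10 : Δ * (I0 / μ ^ 2 * (1 / 8)) ≤ (W b - W a) * (5 * I0) := hnum.trans h9
  have h11 : Δ * (I0 / μ ^ 2 * (1 / 8)) = (1 / 40 * Δ / μ ^ 2) * (5 * I0) := by
    have hm2 : μ ≠ 0 := by positivity
    field_simp
    ring
  rw [h11] at h10
  have h12 := le_of_mul_le_mul_right h10 (by positivity)
  rw [div_le_iff₀ (by positivity)] at h12
  linarith

/-- **Job WMON.** -/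
theorem t_WMON : P_WMON := by
  intro C3 C8 C12 M e C hC
  obtain ⟨D, hD, hB⟩ := bBMON C3 C8 C12 M e C hC
  obtain ⟨M3, hM3, hM3', hcore⟩ := core hC hD
  have hM := hC.hM
  refine ⟨M3, 1 / 40, hM3, by norm_num, ?_⟩
  -- orbits
  have hcl : ∀ (N : ℕ) (x : ℝ), 0 < x → M ≤ mean (R^[N] (pois x)) →
      Cl C3 C8 C12 (R^[N] (pois x)) ∧ ∀ n < N, M ≤ mean (R^[n] (pois x)) := by
    intro N x hx hm
    obtain ⟨hAM, hmx, _⟩ := bPOIS x hx.le
    have hanti := Pool.Agent.Q224.MK.mean_anti hAM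
    have h1 : M ≤ x := by
      have := hanti (Nat.zero_le N)
      simp only [Function.iterate_zero, id] at this
      rw [hmx] at this
      linarith
    exact ⟨Pool.Agent.Q224.MK.cl_it hC (hC.pois x h1) N hm N le_rfl,
      fun n hn => hm.trans (hanti hn.le)⟩
  have hmono : ∀ (N : ℕ) (x1 x2 : ℝ), 0 < x1 → x1 ≤ x2 → M3 ≤ mean (R^[N] (pois x1)) →
      3 / 4 * (x2 - x1) ≤ mean (R^[N] (pois x2)) - mean (R^[N] (pois x1)) ∧
      mean (R^[N] (pois x2)) - mean (R^[N] (pois x1)) ≤ 5 / 4 * (x2 - x1) ∧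
      (x2 - x1 ≤ 1 → M + D ≤ mean (R^[N] (pois x1)) →
      Fd e (R^[N] (pois x1)) (R^[N] (pois x2)) (D * (x2 - x1) * √(mean (R^[N] (pois x1))))) := by
    intro N x1 x2 hx1 h12 hm
    exact hB x1 x2 N h12 (hcl N x1 hx1 (hM3.trans hm)).2 hx1 N le_rfl
  have hstep : ∀ (N : ℕ) (x1 x2 : ℝ), 0 < x1 → x1 ≤ x2 → x2 - x1 ≤ 1 →
      M3 ≤ mean (R^[N] (pois x1)) →
      1 / 40 * (mean (R^[N] (pois x2)) - mean (R^[N] (pois x1))) ≤
        mean (R^[N] (pois x1)) ^ 2 * (W (R^[N] (pois x2)) - W (R^[N] (pois x1))) := by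
    intro N x1 x2 hx1 h12 hle hm
    obtain ⟨b1, b2, b3⟩ := hmono N x1 x2 hx1 h12 hm
    have hm2 : M ≤ mean (R^[N] (pois x2)) := by linarith
    exact hcore _ _ (x2 - x1) (hcl N x1 hx1 (hM3.trans hm)).1
      (hcl N x2 (by linarith) hm2).1 hm (by linarith) hle b1 b2 (b3 hle (hM3'.trans hm))
  -- chains
  have hchain : ∀ (n : ℕ) (N : ℕ) (x1 x2 : ℝ), 0 < x1 → x1 ≤ x2 → x2 - x1 ≤ n + 1 →
      M3 ≤ mean (R^[N] (pois x1)) →
      1 / 40 * (mean (R^[N] (pois x2)) - mean (R^[N] (pois x1))) ≤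
        mean (R^[N] (pois x2)) ^ 2 * (W (R^[N] (pois x2)) - W (R^[N] (pois x1))) := by
    -- from the mean at the beginning to the mean at the end
    have hup : ∀ u v w d : ℝ, 0 < u → u ≤ v → 0 ≤ d → 1 / 40 * d ≤ u ^ 2 * w →
        1 / 40 * d ≤ v ^ 2 * w := by
      intro u v w d hu huv hd h
      have hw : 0 ≤ w := by
        by_contra hcon
        push Not at hcon
        have : u ^ 2 * w < 0 := mul_neg_of_pos_of_neg (by positivity) hcon
        linarith
      refine h.trans (mul_le_mul_of_nonneg_right ?_ hw)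
      exact pow_le_pow_left₀ hu.le huv 2
    intro n
    induction n with
    | zero =>
      intro N x1 x2 hx1 h12 hle hm
      obtain ⟨b1, _, _⟩ := hmono N x1 x2 hx1 h12 hm
      refine hup _ _ _ _ (by linarith) (by linarith) (by linarith)
        (hstep N x1 x2 hx1 h12 (by simpa using hle) hm)
    | succ n ih =>
      intro N x1 x2 hx1 h12 hle hm
      rcases le_or_gt (x2 - x1) (n + 1) with h | h
      · exact ih N x1 x2 hx1 h12 h hm
      · have hn : (0 : ℝ) ≤ n := Nat.cast_nonneg n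
        push_cast at hle
        obtain ⟨y, hy⟩ : ∃ y, y = x2 - 1 := ⟨_, rfl⟩
        have hy1 : x1 ≤ y := by linarith
        have hy0 : 0 < y := by linarith
        obtain ⟨b1, _, _⟩ := hmono N x1 y hx1 hy1 hm
        have hmy : M3 ≤ mean (R^[N] (pois y)) := by linarith
        obtain ⟨c1, _, _⟩ := hmono N y x2 hy0 (by linarith) hmy
        have i1 := ih N x1 y hx1 hy1 (by linarith) hm
        have i2 := hup _ _ _ _ (by linarith) (by linarith : mean (R^[N] (pois y)) ≤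
          mean (R^[N] (pois x2))) (by linarith)
          (hstep N y x2 hy0 (by linarith) (by linarith) hmy)
        have i3 := hup _ _ _ _ (by linarith) (by linarith : mean (R^[N] (pois y)) ≤
          mean (R^[N] (pois x2))) (by linarith) i1
        linarith
  intro N x1 x2 hx1 h12 hm
  obtain ⟨n, hn⟩ := exists_nat_ge (x2 - x1)
  exact hchain n N x1 x2 hx1 h12 (by linarith) hm

end Pool.Agent.Q151.MK
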